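import Pool.Agent.Helper97.Ku.GoalsC

/-! Packet REC: the fusion sequence. -/

namespace Pool.Agent.Helper97.Ku.PkREC

open Set

/-- State of the construction. -/
structure St : Type 1 where
  D : ℕ → Set Coord
  Q : (ℕ → Bool) → Cond
  f : ℕ → ℕ → Option Coord

/-- Invariant. -/
structure Inv (D0 : Set Coord) (p : Cond) (k : ℕ) (s : St) : Prop where
  mono : Monotone s.D
  fin : ∃ F : Set Coord, F.Finite ∧ s.D k = D0 ∪ F
  zero : s.D 0 = D0
  sys : Sys s.D k k s.Q
  le : ∀ σ, s.Q σ ≤ p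
  cov : ∀ σ c, c ∈ (s.Q σ).supp → ∃ j, s.f k j = some c

/-- Successor relation. -/
structure Rel {I : Type 1} (b : I → BA) (k : ℕ) (s s' : St) (n : (ℕ → Bool) → I) : Prop where
  d : ∀ j, j ≤ k → s'.D j = s.D j
  f : ∀ i, i ≤ k → s'.f i = s.f i
  q : ∀ c i j, i ≤ k → j ≤ k → s.f i j = some c → c ∈ s'.D (k + 1)
  le : ∀ σ, s'.Q σ ≤ s.Q σ
  ag : ∀ σ τ, Agree k σ τ → n σ = n τ
  op : ∀ σ τ, Agree k σ τ → σ k ≠ τ k → Opp b (n σ) (s'.Q σ) (s'.Q τ)

theorem exists_enum {U : Set Coord} (hU : U.Countable) :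
    ∃ f : ℕ → Option Coord, ∀ c ∈ U, ∃ j, f j = some c := by
  rcases U.eq_empty_or_nonempty with h | h
  · exact ⟨fun _ => none, fun c hc => by rw [h] at hc; exact absurd hc (notMem_empty c)⟩
  · obtain ⟨g, hg⟩ := hU.exists_eq_range h
    refine ⟨fun j => some (g j), fun c hc => ?_⟩
    rw [hg] at hc
    obtain ⟨j, rfl⟩ := hc
    exact ⟨j, rfl⟩

theorem supp_union_countable {m : ℕ} {Q : (ℕ → Bool) → Cond}
    (h : ∀ σ τ, Agree m σ τ → Q σ = Q τ) : (⋃ σ, (Q σ).supp).Countable := by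
  let ext : (Fin m → Bool) → (ℕ → Bool) := fun s i => if h : i < m then s ⟨i, h⟩ else false
  have h1 : (⋃ σ, (Q σ).supp) ⊆ ⋃ s : Fin m → Bool, (Q (ext s)).supp := by
    intro c hc
    rw [mem_iUnion] at hc ⊢
    obtain ⟨σ, hσ⟩ := hc
    refine ⟨fun i => σ i, ?_⟩
    rw [h (ext fun i => σ i) σ (fun i hi => by simp [ext, hi])]
    exact hσ
  refine Countable.mono h1 ?_
  exact countable_iUnion fun s => (Q (ext s)).supp_countable

theorem exists_init (D0 : Set Coord) (p : Cond) : ∃ s : St, Inv D0 p 0 s := by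
  obtain ⟨f, hf⟩ := exists_enum p.supp_countable
  refine ⟨⟨fun _ => D0, fun _ => p, fun _ => f⟩, ?_, ?_, rfl, ?_, fun _ => le_rfl, ?_⟩
  · exact monotone_const
  · exact ⟨∅, finite_empty, by simp⟩
  · exact ⟨fun _ _ _ => rfl, fun _ _ _ _ _ => rfl⟩
  · intro _ c hc
    exact hf c hc

theorem exists_succ (hS : G_STEP) {I : Type 1} (b : I → BA) (D0 : Set Coord) (p : Cond)
    (hcap : ∀ q, q ≤ p → ∀ F : Set Coord, F.Finite → ¬ Capt b (D0 ∪ F) q)
    (k : ℕ) (s : St) (hs : Inv D0 p k s) :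
    ∃ (s' : St) (n : (ℕ → Bool) → I), Inv D0 p (k + 1) s' ∧ Rel b k s s' n := by
  obtain ⟨F, hF, hDF⟩ := hs.fin
  obtain ⟨Q', n, h1, h2, h3, h4⟩ := hS I b s.D k p s.Q hs.mono
    (fun q hq => by rw [hDF]; exact hcap q hq F hF) hs.sys hs.le
  obtain ⟨g, hg⟩ := exists_enum (supp_union_countable h1.1)
  let W : Set Coord := {c | ∃ i j, i ≤ k ∧ j ≤ k ∧ s.f i j = some c}
  have hW : W.Finite := by
    have h5 : ((fun q : ℕ × ℕ => s.f q.1 q.2) '' (Iic k ×ˢ Iic k)).Finite :=
      ((finite_Iic k).prod (finite_Iic k)).image _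
    refine (h5.preimage (Option.some_injective Coord).injOn).subset ?_
    rintro c ⟨i, j, hi, hj, h⟩
    exact ⟨(i, j), ⟨hi, hj⟩, h⟩
  classical
  refine ⟨⟨fun j => if j ≤ k then s.D j else s.D k ∪ W, Q', Function.update s.f (k + 1) g⟩, n,
    ⟨?_, ?_, ?_, ?_, ?_, ?_⟩, ⟨?_, ?_, ?_, h2, h3, h4⟩⟩
  · intro i j hij
    simp only
    by_cases hj : j ≤ k
    · rw [if_pos hj, if_pos (hij.trans hj)]
      exact hs.mono hij
    · rw [if_neg hj]
      by_cases hi : i ≤ k
      · rw [if_pos hi]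
        exact (hs.mono hi).trans subset_union_left
      · rw [if_neg hi]
  · refine ⟨F ∪ W, hF.union hW, ?_⟩
    simp only
    rw [if_neg (by omega), hDF, union_assoc]
  · simp only
    rw [if_pos (Nat.zero_le k)]
    exact hs.zero
  · refine ⟨h1.1, ?_⟩
    intro j hj σ τ hστ
    simp only
    by_cases hjk : j ≤ k
    · rw [if_pos hjk]
      exact h1.2 j hjk σ τ hστ
    · have hj' : j = k + 1 := by omega
      subst hj'
      rw [h1.1 σ τ hστ]
  · intro σ
    exact (h2 σ).trans (hs.le σ)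
  · intro σ c hc
    simp only [Function.update_self]
    exact hg c (mem_iUnion.2 ⟨σ, hc⟩)
  · intro j hj
    simp only
    rw [if_pos hj]
  · intro i hi
    simp only
    rw [Function.update_of_ne (by omega)]
  · intro c i j hi hj h
    simp only
    rw [if_neg (by omega)]
    exact Or.inr ⟨i, j, hi, hj, h⟩

theorem rec : G_STEP → G_REC := by
  intro hS I b D0 p hcap
  obtain ⟨s0, hs0⟩ := exists_init D0 p
  choose! nx nn hnx using exists_succ hS b D0 p hcap
  let S : ∀ k : ℕ, {s : St // Inv D0 p k s} := fun k =>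
    Nat.rec ⟨s0, hs0⟩ (fun k s => ⟨nx k s.1, (hnx k s.1 s.2).1⟩) k
  have hR : ∀ k, Rel b k (S k).1 (S (k + 1)).1 (nn k (S k).1 (S k).2) := fun k =>
    (hnx k (S k).1 (S k).2).2
  have hD : ∀ k j, j ≤ k → (S k).1.D j = (S j).1.D j := by
    intro k
    induction k with
    | zero =>
      intro j hj
      have : j = 0 := by omega
      subst this
      rfl
    | succ k ih =>
      intro j hj
      by_cases hjk : j ≤ k
      · rw [(hR k).d j hjk, ih j hjk]
      · have : j = k + 1 := by omega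
        subst this
        rfl
  have hf : ∀ k i, i ≤ k → (S k).1.f i = (S i).1.f i := by
    intro k
    induction k with
    | zero =>
      intro j hj
      have : j = 0 := by omega
      subst this
      rfl
    | succ k ih =>
      intro j hj
      by_cases hjk : j ≤ k
      · rw [(hR k).f j hjk, ih j hjk]
      · have : j = k + 1 := by omega
        subst this
        rfl
  refine ⟨fun j => (S j).1.D j, fun k => (S k).1.Q, fun k => nn k (S k).1 (S k).2, ?_, ?_, ?_, ?_, ?_,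
    ?_, ?_, ?_⟩
  · exact (S 0).2.zero
  · intro i j hij
    simp only
    rw [← hD j i hij]
    exact (S j).2.mono hij
  · intro k
    refine ⟨(S k).2.sys.1, ?_⟩
    intro j hj σ τ hστ
    simp only
    rw [← hD k j hj]
    exact (S k).2.sys.2 j hj σ τ hστ
  · intro k σ
    exact (hR k).le σ
  · intro σ
    exact (S 0).2.le σ
  · intro k σ τ h
    exact (hR k).ag σ τ h
  · intro k σ τ h h'
    exact (hR k).op σ τ h h'
  · intro k σ c hc
    obtain ⟨j, hj⟩ := (S k).2.cov σ c hc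
    refine ⟨max k j + 1, ?_⟩
    apply (hR (max k j)).q c k j (le_max_left _ _) (le_max_right _ _)
    rw [hf (max k j) k (le_max_left _ _)]
    exact hj

end Pool.Agent.Helper97.Ku.PkREC
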