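import Pool.Agent.Helper97.Ku.GoalsD

/-! Packet SG: the set of Kurepa trees and its complement are `Σ¹₂`. -/

namespace Pool.Agent.Helper97.Ku.PkSG

open Set

universe u v w

/-- The function variable `k` occurs. -/
def occF (k : ℕ) : SO → Bool
  | .lt _ _ => false
  | .eq _ _ => false
  | .om _ => false
  | .ap f _ _ => f == k
  | .neg a => occF k a
  | .and a b => occF k a || occF k b
  | .all _ a => occF k a
  | .allF _ a => occF k a

theorem val_congr {W : Type u} {F : Type v} {L : Type w} [CompleteBooleanAlgebra L]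
    (M : BStr W F L) (k : ℕ) (φ : SO) : occF k φ = false → ∀ (i : ℕ → W) (e e' : ℕ → F),
    (∀ j, j ≠ k → e j = e' j) → φ.val M i e = φ.val M i e' := by
  induction φ with
  | lt a b => intro _ i e e' _; rfl
  | eq a b => intro _ i e e' _; rfl
  | om a => intro _ i e e' _; rfl
  | ap f a b =>
    intro h i e e' he
    simp only [occF, beq_eq_false_iff_ne] at h
    simp only [SO.val]
    rw [he f h]
  | neg a ih =>
    intro h i e e' he
    simp only [SO.val]
    rw [ih h i e e' he]
  | and a b iha ihb =>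
    intro h i e e' he
    simp only [occF, Bool.or_eq_false_iff] at h
    simp only [SO.val]
    rw [iha h.1 i e e' he, ihb h.2 i e e' he]
  | all n a ih =>
    intro h i e e' he
    simp only [SO.val]
    exact iInf_congr fun x => ih h _ e e' he
  | allF f a ih =>
    intro h i e e' he
    simp only [SO.val]
    refine iInf_congr fun x => ih h i _ _ fun j hj => ?_
    by_cases hjf : j = f
    · subst hjf
      simp
    · rw [Function.update_of_ne hjf, Function.update_of_ne hjf, he j hj]

theorem sg1 : G_KC → G_S12.{1} → G_SG1 := by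
  intro hK hS G i e
  have h1 : (fun x => SO.kur.val (M0 G BA) i (Function.update e 0 x)) =
      fun x => (SO.exs [1, 8, 2, 3] (.and SO.regU SO.cf)).val (M0 G BA) i
        (Function.update (Function.update e 4 (tFN G)) 0 x) := by
    funext x
    rw [← hK G i _ (by simp)]
    refine val_congr (M0 G BA) 4 SO.kur rfl i _ _ fun j hj => ?_
    by_cases h0 : j = 0
    · subst h0
      simp
    · rw [Function.update_of_ne h0, Function.update_of_ne h0, Function.update_of_ne hj]
  rw [h1]
  exact hS Om BA G [1, 8, 2, 3] (.and SO.regU SO.cf) SO.cls_cf i _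

theorem kur_compl (G : Grd Om) (i : ℕ → Om) (e : ℕ → FN Om BA) :
    (SO.kur.val (M0 G BA) i e)ᶜ = (SO.exs [2] SO.nk).val (M0 G BA) i e := by
  haveI : Nonempty (FN Om BA) := ⟨e 0⟩
  have hA : ∀ z, (SO.allF 1 (.neg SO.reg)).val (M0 G BA) i (Function.update e 2 z)
      = (SO.allF 1 (.neg SO.reg)).val (M0 G BA) i e := by
    intro z
    refine val_congr (M0 G BA) 2 _ rfl i _ _ fun j hj => ?_
    rw [Function.update_of_ne hj]
  have h1 : SO.kur.val (M0 G BA) i e = ((SO.allF 1 (.neg SO.reg)).val (M0 G BA) i e)ᶜ ⊓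
      ⨅ z, ((SO.allF 3 (.neg (.and SO.br (.neg SO.lst)))).val (M0 G BA) i
        (Function.update e 2 z))ᶜ := rfl
  have h2 : (SO.exs [2] SO.nk).val (M0 G BA) i e =
      (⨅ z, ((((SO.allF 1 (.neg SO.reg)).val (M0 G BA) i (Function.update e 2 z))ᶜ ⊓
        ((SO.allF 3 (.neg (.and SO.br (.neg SO.lst)))).val (M0 G BA) i
        (Function.update e 2 z))ᶜ)ᶜ)ᶜ)ᶜ := rfl
  rw [h1, h2]
  congr 1
  rw [inf_iInf]
  refine iInf_congr fun z => ?_
  rw [hA z, compl_compl]

theorem sg2 : G_S12.{1} → G_SG2 := by
  intro hS G i e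
  have h1 : (fun x => (SO.kur.val (M0 G BA) i (Function.update e 0 x))ᶜ) =
      fun x => (SO.exs [2] SO.nk).val (M0 G BA) i (Function.update e 0 x) := by
    funext x
    exact kur_compl G i _
  rw [h1]
  exact hS Om BA G [2] SO.nk SO.cls_nk i e

end Pool.Agent.Helper97.Ku.PkSG
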